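import Pool.Agent.P.MP_e0e9b7_co.Chordal

open SimpleGraph Pool.Agent.P.MP_e0e9b7_co

/-- If `H` is chordal then `ι(G □ H) ≥ γ(G) ι(H)` for every finite graph `G`. -/
theorem Pool.Agent.Results.MP_e0e9b7_co.Chordal.result
    {V W : Type} [Fintype V] [Fintype W] (G : SimpleGraph V) (H : SimpleGraph W)
    (hH : IsChordal H) :
    dominationNumber G * isolationNumber H ≤ isolationNumber (G □ H) :=
  chordal_bound G H hH
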