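import Pool.Agent.P.MP_e0e9b7_co.Count

open SimpleGraph Pool.Agent.P.MP_e0e9b7_co

/-- `ι(G □ H) ≥ ι(G) min(ι(H), 2)` for all finite graphs `G`, `H`. -/
theorem Pool.Agent.Results.MP_e0e9b7_co.SmallFactor.result
    {V W : Type} [Fintype V] [Fintype W] (G : SimpleGraph V) (H : SimpleGraph W) :
    isolationNumber G * min (isolationNumber H) 2 ≤ isolationNumber (G □ H) := by
  rcases Nat.lt_or_ge (isolationNumber H) 2 with h | h
  · rcases Nat.eq_zero_or_pos (isolationNumber H) with h0 | h0
    · simp [h0]
    · have := one_mul_le G H h0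
      rw [show min (isolationNumber H) 2 = 1 by omega]
      omega
  · have := two_mul_le G H h
    rw [min_eq_right h]
    omega
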