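import Pool.Agent.P.MP_e0e9b7_co.Count

open SimpleGraph Pool.Agent.P.MP_e0e9b7_co

/-- If `ι(H) = γ(H)` then `ι(G □ H) ≥ (2/3) ι(G) ι(H)` for every finite graph `G`. -/
theorem Pool.Agent.Results.MP_e0e9b7_co.TwoThirds.result
    {V W : Type} [Fintype V] [Fintype W] (G : SimpleGraph V) (H : SimpleGraph W)
    (hH : isolationNumber H = dominationNumber H) :
    2 * (isolationNumber G * isolationNumber H) ≤ 3 * isolationNumber (G □ H) :=
  two_thirds G H hH
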