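import Pool.Agent.P.MP_e0e9b7_co.Universal

open SimpleGraph Pool.Agent.P.MP_e0e9b7_co

/-- `γ(G) ι(H) ≤ (3 + 3/e) ι(G □ H)` for all finite graphs. -/
theorem Pool.Agent.Results.MP_e0e9b7_co.Universal.result
    {V W : Type} [Fintype V] [Fintype W] (G : SimpleGraph V) (H : SimpleGraph W) :
    (dominationNumber G : ℝ) * isolationNumber H ≤
      (3 + 3 / Real.exp 1) * isolationNumber (G □ H) :=
  universal G H
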